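import Mathlib

/-!
# MP_05f72b_al: no uniform bound on the number of equalizer orbits at infinity

For every `n ≥ 6` and every `C` we construct injective endomorphisms `φ, ψ` of the free group
`F n` with trivial equalizer whose continuous extensions to the completion agree at more than `C`
points outside the closure of the equalizer.

Letters used in the proof (`Fin n` begins with `r y x h p q`, and `N` a parameter):
* `φ` fixes `p, q` and sends the letter number `i` (other than `4, 5`) to `y^(-i) r^(-1) y^(-i)`;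
* `ψ` fixes `r, y`, sends `x` to `V^(-1) q^2 p q^2` and the letter number `i ≥ 3` to `q^i p q^i`;
* `V = V_N` is a positive word in `r, y`, built so that
  `ψ (r^j y c_l x) = φ (r^(2l-j) y c_l x d_l q^2 p q^2)` for `l ≤ N`, `j ≤ 2l`, with positive `d_l`.
Iterating from `r^l y c_l x` gives, for each `l ≤ N`, an infinite positive word at which the two
extensions agree.
-/

namespace Pool.Agent.Results.MP_05f72b_al.UnboundedOrbits

/-- The free group on the letters `Fin n`. -/
abbrev F (n : ℕ) : Type := FreeGroup (Fin n)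

/-- Length of the longest common initial segment of two words. -/
def lcp {α : Type} [DecidableEq α] : List α → List α → ℕ
  | a :: l, b :: m => if a = b then lcp l m + 1 else 0
  | _, _ => 0

/-- The prefix distance between two elements of the free group. -/
noncomputable def pdist {n : ℕ} (u v : F n) : ℝ :=
  if u = v then 0 else (1 / 2 : ℝ) ^ lcp u.toWord v.toWord

section lcp
variable {α : Type} [DecidableEq α]

theorem lcp_comm (l m : List α) : lcp l m = lcp m l := by
  induction l generalizing m with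
  | nil => cases m <;> simp [lcp]
  | cons a l ih =>
    cases m with
    | nil => simp [lcp]
    | cons b m =>
      simp only [lcp]
      by_cases h : a = b
      · simp [h, ih m]
      · simp [h, Ne.symm h]

theorem take_of_le_lcp (l m : List α) (k : ℕ) (h : k ≤ lcp l m) : l.take k = m.take k := by
  induction l generalizing m k with
  | nil =>
    have : k = 0 := by cases m <;> simpa [lcp] using h
    simp [this]
  | cons a l ih =>
    cases m with
    | nil =>
      have : k = 0 := by simpa [lcp] using h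
      simp [this]
    | cons b m =>
      cases k with
      | zero => simp
      | succ k =>
        simp only [lcp] at h
        by_cases hab : a = b
        · simp only [hab, if_true] at h
          simp [hab, ih m k (by omega)]
        · simp [hab] at h

theorem le_lcp_of_take (l m : List α) (k : ℕ) (h : l.take k = m.take k) : l = m ∨ k ≤ lcp l m := by
  induction l generalizing m k with
  | nil =>
    cases k with
    | zero => simp
    | succ k =>
      cases m with
      | nil => simp
      | cons b m => simp at h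
  | cons a l ih =>
    cases k with
    | zero => simp
    | succ k =>
      cases m with
      | nil => simp at h
      | cons b m =>
        simp only [List.take_succ_cons, List.cons.injEq] at h
        obtain ⟨h1, h2⟩ := h
        rcases ih m k h2 with h3 | h3
        · left; simp [h1, h3]
        · right; simp [lcp, h1, h3]

end lcp

theorem pdist_nonneg {n : ℕ} (u v : F n) : 0 ≤ pdist u v := by
  unfold pdist; split_ifs <;> positivity

theorem pdist_self {n : ℕ} (u : F n) : pdist u u = 0 := by simp [pdist]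

theorem pdist_comm {n : ℕ} (u v : F n) : pdist u v = pdist v u := by
  unfold pdist
  by_cases h : u = v
  · simp [h]
  · simp [h, Ne.symm h, lcp_comm u.toWord]

theorem eq_of_pdist {n : ℕ} (u v : F n) (h : pdist u v = 0) : u = v := by
  by_contra hne
  simp [pdist, hne] at h

theorem pdist_le_iff {n : ℕ} (u v : F n) (k : ℕ) :
    pdist u v ≤ (1 / 2 : ℝ) ^ k ↔ u.toWord.take k = v.toWord.take k := by
  constructor
  · intro h
    by_cases huv : u = v
    · simp [huv]
    · simp only [pdist, huv, if_false] at h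
      apply take_of_le_lcp
      exact (pow_le_pow_iff_right_of_lt_one₀ (by norm_num) (by norm_num)).1 h
  · intro h
    rcases le_lcp_of_take _ _ _ h with h1 | h1
    · rw [FreeGroup.toWord_injective h1, pdist_self]; positivity
    · unfold pdist
      split_ifs
      · positivity
      · exact pow_le_pow_of_le_one (by norm_num) (by norm_num) h1

theorem pdist_ultra {n : ℕ} (u v w : F n) : pdist u w ≤ max (pdist u v) (pdist v w) := by
  by_cases h1 : u = v
  · subst h1; exact le_max_right _ _
  by_cases h2 : v = w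
  · subst h2; exact le_max_left _ _
  by_cases h3 : u = w
  · subst h3; rw [pdist_self]; exact le_max_of_le_left (pdist_nonneg _ _)
  have e1 : pdist u v = (1 / 2 : ℝ) ^ lcp u.toWord v.toWord := by simp [pdist, h1]
  have e2 : pdist v w = (1 / 2 : ℝ) ^ lcp v.toWord w.toWord := by simp [pdist, h2]
  rcases le_total (lcp u.toWord v.toWord) (lcp v.toWord w.toWord) with h | h
  · refine le_trans ?_ (le_max_left _ _)
    rw [e1, pdist_le_iff]
    rw [take_of_le_lcp _ _ _ (le_refl (lcp u.toWord v.toWord)), take_of_le_lcp _ _ _ h]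
  · refine le_trans ?_ (le_max_right _ _)
    rw [e2, pdist_le_iff]
    rw [take_of_le_lcp _ _ _ h, take_of_le_lcp _ _ _ (le_refl (lcp v.toWord w.toWord))]

/-- The prefix metric on the free group. -/
noncomputable instance prefMetric (n : ℕ) : MetricSpace (F n) where
  dist := pdist
  dist_self := pdist_self
  dist_comm := pdist_comm
  dist_triangle u v w := by
    refine (pdist_ultra u v w).trans (max_le_add_of_nonneg (pdist_nonneg _ _) (pdist_nonneg _ _))
  eq_of_dist_eq_zero {u v} := eq_of_pdist u v

/-- The completion of the free group for the prefix metric. -/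
abbrev Hat (n : ℕ) : Type := UniformSpace.Completion (F n)

/-- `Φ` is the continuous extension of the endomorphism `φ` to the completion. -/
def IsExt {n : ℕ} (φ : F n →* F n) (Φ : Hat n → Hat n) : Prop :=
  Continuous Φ ∧ ∀ g : F n, Φ (g : Hat n) = (φ g : Hat n)

/-- Left multiplication by `g` on the completion: the continuous extension of `u ↦ g * u`. -/
noncomputable def act {n : ℕ} (g : F n) : Hat n → Hat n :=
  UniformSpace.Completion.map (fun u : F n => g * u)

/-- The regular points: the points `α` of the completion with `Φ α = Ψ α` which are not in the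
closure of the equalizer of `φ` and `ψ` in the free group. -/
def regular {n : ℕ} (φ ψ : F n →* F n) (Φ Ψ : Hat n → Hat n) : Set (Hat n) :=
  {α | Φ α = Ψ α} \ closure ((fun g : F n => (g : Hat n)) '' (MonoidHom.eqLocus φ ψ : Set (F n)))

/-- The set of orbits of regular points under left multiplication by the equalizer. -/
noncomputable def orbits {n : ℕ} (φ ψ : F n →* F n) (Φ Ψ : Hat n → Hat n) : Set (Set (Hat n)) :=
  (fun α => {β | ∃ g ∈ MonoidHom.eqLocus φ ψ, act g α = β}) '' regular φ ψ Φ Ψ

theorem dist_le_iff {n : ℕ} (u v : F n) (k : ℕ) :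
    dist u v ≤ (1 / 2 : ℝ) ^ k ↔ u.toWord.take k = v.toWord.take k := pdist_le_iff u v k

/-! ### One letter steps -/

theorem toWord_mk_red {n : ℕ} {L : List (Fin n × Bool)} (h : FreeGroup.IsReduced L) :
    (FreeGroup.mk L).toWord = L := by
  rw [FreeGroup.toWord_mk, h.reduce_eq]

theorem mk_append_cancel {n : ℕ} (L : List (Fin n × Bool)) (i : Fin n) (b : Bool) :
    FreeGroup.mk (L ++ [(i, !b)]) * FreeGroup.mk [(i, b)] = FreeGroup.mk L := by
  rw [FreeGroup.mul_mk, List.append_assoc]
  apply FreeGroup.Red.exact.2 ?_ |> id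
  exact ⟨L, by simpa using (FreeGroup.Red.Step.not (L₁ := L) (L₂ := []) (x := i) (b := !b)).to_red, FreeGroup.Red.refl⟩

theorem step_cases {n : ℕ} (g : F n) (s : Fin n × Bool) :
    (g * FreeGroup.mk [s]).toWord = g.toWord ++ [s] ∨
      ∃ t, g.toWord = (g * FreeGroup.mk [s]).toWord ++ [t] := by
  by_cases h : FreeGroup.IsReduced (g.toWord ++ [s])
  · left
    conv_lhs => rw [← FreeGroup.mk_toWord (x := g), FreeGroup.mul_mk]
    rw [toWord_mk_red h]
  · right
    have hr : FreeGroup.IsReduced g.toWord := FreeGroup.isReduced_toWord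
    rcases List.eq_nil_or_concat g.toWord with h0 | ⟨L, t, hL⟩
    · rw [h0] at h
      exact absurd (by simp [FreeGroup.IsReduced]) h
    · have hL' : g.toWord = L ++ [t] := by rw [hL, List.concat_eq_append]
      have hLr : FreeGroup.IsReduced L := by
        rw [hL'] at hr
        exact (List.isChain_append.1 hr).1
      have ht : t = (s.1, !s.2) := by
        rw [hL'] at h hr
        by_contra hne
        apply h
        unfold FreeGroup.IsReduced at *
        rw [List.isChain_append]
        refine ⟨hr, by simp, ?_⟩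
        intro x hx y hy
        simp at hx hy
        subst hx hy
        intro h1
        by_contra h2
        apply hne
        ext
        · exact congrArg _ h1
        · cases h3 : t.2 <;> cases h4 : s.2 <;> simp_all
      refine ⟨t, ?_⟩
      have : g * FreeGroup.mk [s] = FreeGroup.mk L := by
        conv_lhs => rw [← FreeGroup.mk_toWord (x := g), hL', ht]
        exact mk_append_cancel L s.1 s.2
      rw [this, toWord_mk_red hLr, hL']

theorem norm_step {n : ℕ} (g : F n) (s : Fin n × Bool) :
    g.norm ≤ (g * FreeGroup.mk [s]).norm + 1 := by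
  unfold FreeGroup.norm
  rcases step_cases g s with h | ⟨t, h⟩
  · rw [h]; simp; omega
  · conv_lhs => rw [h]
    simp

theorem take_step {n : ℕ} (g : F n) (s : Fin n × Bool) (k : ℕ) (hk : k + 1 ≤ g.norm) :
    (g * FreeGroup.mk [s]).toWord.take k = g.toWord.take k := by
  unfold FreeGroup.norm at hk
  rcases step_cases g s with h | ⟨t, h⟩
  · rw [h, List.take_append_of_le_length (by omega)]
  · conv_rhs => rw [h]
    rw [List.take_append_of_le_length]
    have : g.toWord.length = (g * FreeGroup.mk [s]).toWord.length + 1 := by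
      conv_lhs => rw [h]
      simp
    omega

theorem take_mul {n : ℕ} (L : List (Fin n × Bool)) (g : F n) (k : ℕ)
    (hk : k + L.length ≤ g.norm) :
    (g * FreeGroup.mk L).toWord.take k = g.toWord.take k := by
  induction L generalizing g with
  | nil => simp [← FreeGroup.one_eq_mk]
  | cons s L ih =>
    have e : g * FreeGroup.mk (s :: L) = (g * FreeGroup.mk [s]) * FreeGroup.mk L := by
      rw [mul_assoc, FreeGroup.mul_mk]; rfl
    simp only [List.length_cons] at hk
    rw [e, ih, take_step _ _ _ (by omega)]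
    have := norm_step g s
    omega

/-- A homomorphism that shrinks norms at most by a constant factor is uniformly continuous
for the prefix metrics. -/
theorem uc_of_expand {n m : ℕ} (f : F n →* F m) (μ : ℕ) (hf : ∀ z, z.norm ≤ μ * (f z).norm) :
    UniformContinuous f := by
  obtain ⟨lam, hlam⟩ : ∃ lam : ℕ, ∀ s : Fin n × Bool, (f (FreeGroup.mk [s])).norm ≤ lam :=
    ⟨Finset.univ.sup (fun s => (f (FreeGroup.mk [s])).norm),
      fun s => Finset.le_sup (f := fun s => (f (FreeGroup.mk [s])).norm) (Finset.mem_univ s)⟩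
  have key : ∀ (N : ℕ) (L₂ L₁ : List (Fin n × Bool)), FreeGroup.IsReduced (L₁ ++ L₂) →
      (μ * (N + lam) + 1 ≤ L₁.length ∨ L₂ = []) →
      (f (FreeGroup.mk (L₁ ++ L₂))).toWord.take N = (f (FreeGroup.mk L₁)).toWord.take N := by
    intro N L₂
    induction L₂ with
    | nil => intro L₁ _ _; simp
    | cons s L₂ ih =>
      intro L₁ hr hlen
      have hlen' : μ * (N + lam) + 1 ≤ L₁.length := by
        rcases hlen with h | h
        · exact h
        · simp at h
      have e : L₁ ++ s :: L₂ = (L₁ ++ [s]) ++ L₂ := by simp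
      rw [e, ih (L₁ ++ [s]) (by rwa [← e]) (Or.inl (by simp; omega))]
      have hL₁ : FreeGroup.IsReduced L₁ := (List.isChain_append.1 hr).1
      rw [← FreeGroup.mul_mk, map_mul]
      conv_lhs => rw [← FreeGroup.mk_toWord (x := f (FreeGroup.mk [s]))]
      apply take_mul
      have h1 := hf (FreeGroup.mk L₁)
      have h2 : (FreeGroup.mk L₁).norm = L₁.length := by
        unfold FreeGroup.norm; rw [toWord_mk_red hL₁]
      have h3 : μ * (N + lam) < μ * (f (FreeGroup.mk L₁)).norm := by omega
      have h4 := lt_of_mul_lt_mul_left h3 (Nat.zero_le _)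
      have h5 := hlam s
      unfold FreeGroup.norm at h5
      omega
  rw [Metric.uniformContinuous_iff]
  intro ε hε
  obtain ⟨N, hN⟩ := exists_pow_lt_of_lt_one hε (by norm_num : (1 / 2 : ℝ) < 1)
  refine ⟨(1 / 2 : ℝ) ^ (μ * (N + lam) + 1), by positivity, ?_⟩
  intro u v huv
  have h1 := (dist_le_iff u v _).1 huv.le
  refine lt_of_le_of_lt ?_ hN
  rw [dist_le_iff]
  have aux : ∀ w : F n, (f w).toWord.take N =
      (f (FreeGroup.mk (w.toWord.take (μ * (N + lam) + 1)))).toWord.take N := by
    intro w
    have h2 := key N (w.toWord.drop (μ * (N + lam) + 1)) (w.toWord.take (μ * (N + lam) + 1))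
      (by rw [List.take_append_drop]; exact FreeGroup.isReduced_toWord)
      (by
        rcases le_total (μ * (N + lam) + 1) w.toWord.length with h | h
        · left; simp; omega
        · right; simp; omega)
    rw [List.take_append_drop, FreeGroup.mk_toWord] at h2
    exact h2
  rw [aux u, aux v, h1]

/-! ### Homomorphisms of the form `a ↦ b ^ e a * (m a) * b ^ e a` -/

/-- The group element of a signed letter. -/
def ltr {n : ℕ} (s : Fin n × Bool) : F n := FreeGroup.mk [s]

/-- sign of a Boolean -/
def sg (ε : Bool) : ℤ := if ε then 1 else -1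

/-- The reduced word of `(of b) ^ z`. -/
def pw {n : ℕ} (b : Fin n) (z : ℤ) : List (Fin n × Bool) :=
  List.replicate z.natAbs (b, decide (0 ≤ z))

theorem mk_cons {n : ℕ} (s : Fin n × Bool) (w : List (Fin n × Bool)) :
    (FreeGroup.mk (s :: w) : F n) = ltr s * FreeGroup.mk w := by
  rw [ltr, FreeGroup.mul_mk]; rfl

theorem ltr_true {n : ℕ} (a : Fin n) : ltr (a, true) = FreeGroup.of a := rfl

theorem ltr_not {n : ℕ} (a : Fin n) (ε : Bool) : ltr (a, !ε) = (ltr (a, ε))⁻¹ := by
  rw [ltr, ltr, FreeGroup.inv_mk]; rfl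

theorem mk_replicate {n : ℕ} (s : Fin n × Bool) (k : ℕ) :
    (FreeGroup.mk (List.replicate k s) : F n) = ltr s ^ k := by
  induction k with
  | zero => rfl
  | succ k ih => rw [List.replicate_succ, mk_cons, ih, pow_succ']

theorem mk_pw {n : ℕ} (b : Fin n) (z : ℤ) : (FreeGroup.mk (pw b z) : F n) = FreeGroup.of b ^ z := by
  unfold pw
  rw [mk_replicate]
  rcases Int.natAbs_eq z with h | h
  · have h0 : 0 ≤ z := by omega
    rw [decide_eq_true h0, ltr_true]
    conv_rhs => rw [h]
    rw [zpow_natCast]
  · by_cases h0 : 0 ≤ z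
    · have : z = 0 := by omega
      subst this
      simp
    · rw [decide_eq_false h0]
      have e := ltr_not b true
      rw [Bool.not_true, ltr_true] at e
      rw [e]
      conv_rhs => rw [h]
      rw [zpow_neg, zpow_natCast, inv_pow]

/-- the signed middle letter -/
def mid {n : ℕ} (m : Fin n → Fin n × Bool) (s : Fin n × Bool) : Fin n × Bool :=
  ((m s.1).1, if s.2 then (m s.1).2 else !(m s.1).2)

/-- explicit form of the image of a word -/
def G {n : ℕ} (b : Fin n) (e : Fin n → ℤ) (m : Fin n → Fin n × Bool) :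
    ℤ → List (Fin n × Bool) → List (Fin n × Bool)
  | z, [] => pw b z
  | z, s :: w => pw b (z + sg s.2 * e s.1) ++ mid m s :: G b e m (sg s.2 * e s.1) w

/-- the homomorphism `a ↦ b ^ e a * (m a) * b ^ e a` -/
def cd {n : ℕ} (b : Fin n) (e : Fin n → ℤ) (m : Fin n → Fin n × Bool) : F n →* F n :=
  FreeGroup.lift (fun a => FreeGroup.of b ^ e a * ltr (m a) * FreeGroup.of b ^ e a)

theorem cd_ltr {n : ℕ} (b : Fin n) (e : Fin n → ℤ) (m : Fin n → Fin n × Bool) (s : Fin n × Bool) :
    cd b e m (ltr s) = FreeGroup.of b ^ (sg s.2 * e s.1) * ltr (mid m s) *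
      FreeGroup.of b ^ (sg s.2 * e s.1) := by
  obtain ⟨a, ε⟩ := s
  have h : cd b e m (ltr (a, true)) =
      FreeGroup.of b ^ e a * ltr (m a) * FreeGroup.of b ^ e a := by
    rw [ltr_true, cd, FreeGroup.lift_apply_of]
  cases ε with
  | true => simpa [sg, mid] using h
  | false =>
    have e1 := ltr_not a true
    rw [Bool.not_true] at e1
    have e2 : mid m (a, false) = ((m a).1, !(m a).2) := by simp [mid]
    have e3 : ltr (mid m (a, false)) = (ltr (m a))⁻¹ := by rw [e2, ltr_not]
    rw [e1, map_inv, h, e3]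
    simp only [sg]
    simp [mul_assoc]

theorem mk_G {n : ℕ} (b : Fin n) (e : Fin n → ℤ) (m : Fin n → Fin n × Bool)
    (w : List (Fin n × Bool)) (z : ℤ) :
    FreeGroup.mk (G b e m z w) = FreeGroup.of b ^ z * cd b e m (FreeGroup.mk w) := by
  induction w generalizing z with
  | nil => 
    have : (FreeGroup.mk [] : F n) = 1 := rfl
    simp [G, mk_pw, this]
  | cons s w ih =>
    simp only [G]
    rw [← FreeGroup.mul_mk, mk_cons, ih, mk_pw, mk_cons, map_mul, cd_ltr, zpow_add]
    simp only [mul_assoc]

/-- The conditions on the data. -/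
structure Good {n : ℕ} (b : Fin n) (e : Fin n → ℤ) (m : Fin n → Fin n × Bool) : Prop where
  ne : ∀ a, (m a).1 ≠ b
  sgn : ∀ a a', (m a).1 = (m a').1 → (m a).2 = (m a').2
  inj : ∀ a a', (m a).1 = (m a').1 → e a = e a' → a = a'

theorem pw_zero {n : ℕ} (b : Fin n) : pw b 0 = [] := by simp [pw]

theorem pw_append_red {n : ℕ} (b : Fin n) (z : ℤ) (t : Fin n × Bool) (l : List (Fin n × Bool))
    (ht : t.1 ≠ b) (h : FreeGroup.IsReduced (t :: l)) : FreeGroup.IsReduced (pw b z ++ t :: l) := by
  unfold FreeGroup.IsReduced at *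
  rw [List.isChain_append]
  refine ⟨?_, h, ?_⟩
  · unfold pw
    exact List.isChain_replicate_of_rel _ (fun _ => rfl)
  · intro x hx y hy
    simp only [List.head?_cons, Option.mem_def, Option.some.injEq] at hy
    subst hy
    have hx' := List.mem_of_mem_getLast? hx
    rw [pw, List.mem_replicate] at hx'
    intro h1
    rw [hx'.2] at h1
    exact absurd h1.symm ht

theorem isReduced_mid_G {n : ℕ} {b : Fin n} {e : Fin n → ℤ} {m : Fin n → Fin n × Bool}
    (hg : Good b e m) (w : List (Fin n × Bool)) (s : Fin n × Bool)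
    (h : FreeGroup.IsReduced (s :: w)) :
    FreeGroup.IsReduced (mid m s :: G b e m (sg s.2 * e s.1) w) := by
  induction w generalizing s with
  | nil =>
    simp only [G]
    unfold FreeGroup.IsReduced
    rw [List.isChain_cons]
    refine ⟨?_, ?_⟩
    · intro y hy
      have hy' := List.mem_of_mem_head? hy
      rw [pw, List.mem_replicate] at hy'
      intro h1
      rw [hy'.2] at h1
      exact absurd h1 (hg.ne s.1)
    · unfold pw
      exact List.isChain_replicate_of_rel _ (fun _ => rfl)
  | cons t w ih =>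
    have h2 : FreeGroup.IsReduced (t :: w) := (List.isChain_cons.1 h).2
    have h3 := ih t h2
    have h4 := pw_append_red b (sg s.2 * e s.1 + sg t.2 * e t.1) (mid m t) _ (hg.ne t.1) h3
    simp only [G]
    unfold FreeGroup.IsReduced
    rw [List.isChain_cons]
    refine ⟨?_, h4⟩
    intro y hy
    by_cases hz : sg s.2 * e s.1 + sg t.2 * e t.1 = 0
    · rw [hz, pw_zero] at hy
      simp only [List.nil_append, List.head?_cons, Option.mem_def, Option.some.injEq] at hy
      subst hy
      intro h5
      simp only [mid] at h5 ⊢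
      have h6 := hg.sgn _ _ h5
      by_cases h7 : s.2 = t.2
      · rw [h6, h7]
      · exfalso
        have h8 : e s.1 = e t.1 := by
          unfold sg at hz
          cases hs : s.2 <;> cases ht : t.2 <;> simp [hs, ht] at hz h7 <;> linarith
        have h9 := hg.inj _ _ h5 h8
        have h10 : s.1 = t.1 → s.2 = t.2 := by
          have := (List.isChain_cons.1 h).1 t (by simp)
          exact this
        exact h7 (h10 h9)
    · have hy' : y ∈ (pw b (sg s.2 * e s.1 + sg t.2 * e t.1)).head? := by
        rw [List.head?_append_of_ne_nil] at hy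
        · exact hy
        · simp [pw]
          exact hz
      have hy2 := List.mem_of_mem_head? hy'
      rw [pw, List.mem_replicate] at hy2
      intro h1
      rw [hy2.2] at h1
      exact absurd h1 (hg.ne s.1)

theorem isReduced_G {n : ℕ} {b : Fin n} {e : Fin n → ℤ} {m : Fin n → Fin n × Bool}
    (hg : Good b e m) (w : List (Fin n × Bool)) (z : ℤ)
    (h : FreeGroup.IsReduced w) : FreeGroup.IsReduced (G b e m z w) := by
  cases w with
  | nil =>
    simp only [G]
    unfold FreeGroup.IsReduced pw
    exact List.isChain_replicate_of_rel _ (fun _ => rfl)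
  | cons s w =>
    exact pw_append_red _ _ _ _ (hg.ne _) (isReduced_mid_G hg w s h)

theorem toWord_cd {n : ℕ} {b : Fin n} {e : Fin n → ℤ} {m : Fin n → Fin n × Bool}
    (hg : Good b e m) (g : F n) : (cd b e m g).toWord = G b e m 0 g.toWord := by
  have h := mk_G b e m g.toWord 0
  rw [zpow_zero, one_mul, FreeGroup.mk_toWord] at h
  rw [← h, toWord_mk_red (isReduced_G hg _ _ FreeGroup.isReduced_toWord)]

theorem length_G {n : ℕ} (b : Fin n) (e : Fin n → ℤ) (m : Fin n → Fin n × Bool)
    (w : List (Fin n × Bool)) (z : ℤ) : w.length ≤ (G b e m z w).length := by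
  induction w generalizing z with
  | nil => simp
  | cons s w ih =>
    simp only [G, List.length_cons, List.length_append]
    have := ih (sg s.2 * e s.1)
    omega

theorem norm_cd {n : ℕ} {b : Fin n} {e : Fin n → ℤ} {m : Fin n → Fin n × Bool}
    (hg : Good b e m) (g : F n) : g.norm ≤ (cd b e m g).norm := by
  unfold FreeGroup.norm
  rw [toWord_cd hg]
  exact length_G _ _ _ _ _

/-- number of letters of `g` with index satisfying `P` -/
def cnt {n : ℕ} (P : Fin n → Bool) (g : F n) : ℕ := g.toWord.countP (fun s => P s.1)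

theorem count_G {n : ℕ} (b : Fin n) (e : Fin n → ℤ) (m : Fin n → Fin n × Bool)
    (P : Fin n → Bool) (hP : P b = false) (w : List (Fin n × Bool)) (z : ℤ) :
    (G b e m z w).countP (fun s => P s.1) = w.countP (fun s => P (m s.1).1) := by
  have hpw : ∀ z, (pw b z).countP (fun s => P s.1) = 0 := by
    intro z
    rw [List.countP_eq_zero]
    intro a ha
    rw [pw, List.mem_replicate] at ha
    rw [ha.2]
    simp [hP]
  induction w generalizing z with
  | nil => simp [G, hpw]
  | cons s w ih =>
    simp only [G, List.countP_append, List.countP_cons, hpw, ih, zero_add]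
    rfl

theorem cnt_cd {n : ℕ} {b : Fin n} {e : Fin n → ℤ} {m : Fin n → Fin n × Bool}
    (hg : Good b e m) (P : Fin n → Bool) (hP : P b = false) (g : F n) :
    cnt P (cd b e m g) = cnt (fun a => P (m a).1) g := by
  unfold cnt
  rw [toWord_cd hg, count_G b e m P hP]

theorem count_pad {n : ℕ} {b : Fin n} {e : Fin n → ℤ} {m : Fin n → Fin n × Bool}
    (w : List (Fin n × Bool))
    (h : (G b e m 0 w).countP (fun s => decide (s.1 = b)) = 0) : ∀ s ∈ w, e s.1 = 0 := by
  induction w with
  | nil => simp
  | cons s w ih =>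
    simp only [G, List.countP_append, List.countP_cons, zero_add] at h
    have h1 : (pw b (sg s.2 * e s.1)).countP (fun s => decide (s.1 = b)) = 0 := by omega
    have h2 : e s.1 = 0 := by
      rw [List.countP_eq_zero] at h1
      by_contra hne
      have : (b, decide (0 ≤ sg s.2 * e s.1)) ∈ pw b (sg s.2 * e s.1) := by
        rw [pw, List.mem_replicate]
        refine ⟨?_, rfl⟩
        rw [Int.natAbs_ne_zero]
        refine mul_ne_zero ?_ hne
        unfold sg; split_ifs <;> norm_num
      have := h1 _ this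
      simp at this
    rw [h2, mul_zero] at h
    intro t ht
    rcases List.mem_cons.1 ht with h3 | h3
    · rw [h3, h2]
    · exact ih (by omega) t h3

/-! ### Letter counts and homomorphisms -/

theorem cnt_mul_le {n : ℕ} (P : Fin n → Bool) (g h : F n) : cnt P (g * h) ≤ cnt P g + cnt P h := by
  unfold cnt
  rw [← List.countP_append]
  exact (FreeGroup.toWord_mul_sublist g h).countP_le

theorem cnt_inv {n : ℕ} (P : Fin n → Bool) (g : F n) : cnt P g⁻¹ = cnt P g := by
  unfold cnt
  rw [FreeGroup.toWord_inv, FreeGroup.invRev, List.countP_reverse, List.countP_map]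
  rfl

theorem cnt_one {n : ℕ} (P : Fin n → Bool) : cnt P (1 : F n) = 0 := by
  simp [cnt]

theorem ltr_false {n : ℕ} (a : Fin n) : ltr (a, false) = (FreeGroup.of a)⁻¹ := by
  have := ltr_not a true
  rwa [Bool.not_true, ltr_true] at this

theorem cnt_hom_le {n : ℕ} (P : Fin n → Bool) (f : F n →* F n)
    (hf : ∀ a, cnt P (f (FreeGroup.of a)) ≤ if P a then 1 else 0) (g : F n) :
    cnt P (f g) ≤ cnt P g := by
  have key : ∀ w : List (Fin n × Bool),
      cnt P (f (FreeGroup.mk w)) ≤ w.countP (fun s => P s.1) := by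
    intro w
    induction w with
    | nil =>
      have : (FreeGroup.mk [] : F n) = 1 := rfl
      rw [this, map_one, cnt_one]; simp
    | cons s w ih =>
      rw [mk_cons, map_mul, List.countP_cons]
      have h1 := cnt_mul_le P (f (ltr s)) (f (FreeGroup.mk w))
      have h2 : cnt P (f (ltr s)) ≤ if P s.1 then 1 else 0 := by
        obtain ⟨a, ε⟩ := s
        cases ε with
        | true => exact hf a
        | false => rw [ltr_false, map_inv, cnt_inv]; exact hf a
      omega
  have := key g.toWord
  rwa [FreeGroup.mk_toWord] at this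

theorem norm_hom_le {n : ℕ} (f : F n →* F n) (lam : ℕ)
    (hf : ∀ a, (f (FreeGroup.of a)).norm ≤ lam) (g : F n) : (f g).norm ≤ lam * g.norm := by
  have key : ∀ w : List (Fin n × Bool), (f (FreeGroup.mk w)).norm ≤ lam * w.length := by
    intro w
    induction w with
    | nil =>
      have : (FreeGroup.mk [] : F n) = 1 := rfl
      rw [this, map_one]; simp
    | cons s w ih =>
      rw [mk_cons, map_mul]
      have h1 := FreeGroup.norm_mul_le (f (ltr s)) (f (FreeGroup.mk w))
      have h2 : (f (ltr s)).norm ≤ lam := by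
        obtain ⟨a, ε⟩ := s
        cases ε with
        | true => exact hf a
        | false => rw [ltr_false, map_inv, FreeGroup.norm_inv_eq]; exact hf a
      rw [List.length_cons, mul_add, mul_one]
      omega
  have := key g.toWord
  rwa [FreeGroup.mk_toWord] at this

theorem inj_of_expand {n : ℕ} (f : F n →* F n) (μ : ℕ) (hf : ∀ z, z.norm ≤ μ * (f z).norm) :
    Function.Injective f := by
  rw [injective_iff_map_eq_one]
  intro a ha
  have h := hf a
  rw [ha, FreeGroup.norm_one, mul_zero] at h
  exact FreeGroup.norm_eq_zero.1 (Nat.le_zero.1 h)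

theorem countP_eq_imp {α : Type} (P Q : α → Bool) (l : List α) (h : ∀ a, P a = true → Q a = true)
    (hc : l.countP Q ≤ l.countP P) : ∀ a ∈ l, Q a = true → P a = true := by
  induction l with
  | nil => simp
  | cons b l ih =>
    have h1 : l.countP P ≤ l.countP Q := List.countP_mono_left (fun a _ => h a)
    rw [List.countP_cons, List.countP_cons] at hc
    intro a ha hq
    rcases List.mem_cons.1 ha with h2 | h2
    · subst h2
      by_contra hp
      rw [if_pos hq, if_neg hp] at hc
      omega
    · refine ih ?_ a h2 hq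
      by_cases hp : P b = true
      · rw [if_pos hp, if_pos (h b hp)] at hc
        omega
      · rw [if_neg hp] at hc
        omega

/-! ### The two homomorphisms -/

section data
variable (m : ℕ)

/-- The letter number `i`. -/
abbrev lt (i : Fin 6) : Fin (m + 6) := ⟨i.val, by omega⟩

/-- exponents for the first map -/
def e1 (a : Fin (m + 6)) : ℤ := if a.val = 4 ∨ a.val = 5 then 0 else -(a.val : ℤ)

/-- middle letters for the first map -/
def m1 (a : Fin (m + 6)) : Fin (m + 6) × Bool :=
  if a.val = 4 then (lt m 4, true) else if a.val = 5 then (lt m 5, true) else (lt m 0, false)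

/-- exponents for the second map -/
def e2 (a : Fin (m + 6)) : ℤ := if a.val ≤ 1 then 0 else (a.val : ℤ)

/-- middle letters for the second map -/
def m2 (a : Fin (m + 6)) : Fin (m + 6) × Bool :=
  if a.val = 0 then (lt m 0, true) else if a.val = 1 then (lt m 1, true) else (lt m 4, true)

/-- the first endomorphism -/
def phi : F (m + 6) →* F (m + 6) := cd (lt m 1) (e1 m) (m1 m)

/-- the code part of the second endomorphism -/
def psi0 : F (m + 6) →* F (m + 6) := cd (lt m 5) (e2 m) (m2 m)

/-- the transvection `x ↦ W * x` -/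
def Tr (W : F (m + 6)) : F (m + 6) →* F (m + 6) :=
  FreeGroup.lift (fun a => if a.val = 2 then W * FreeGroup.of a else FreeGroup.of a)

/-- the second endomorphism -/
def psi (V : F (m + 6)) : F (m + 6) →* F (m + 6) := (psi0 m).comp (Tr m V⁻¹)

theorem good1 : Good (lt m 1) (e1 m) (m1 m) where
  ne a := by unfold m1; split_ifs <;> simp [Fin.ext_iff]
  sgn a a' := by unfold m1; split_ifs <;> simp [Fin.ext_iff]
  inj a a' := by
    unfold m1 e1
    rw [Fin.ext_iff, Fin.ext_iff]
    split_ifs <;> simp <;> omega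

theorem good2 : Good (lt m 5) (e2 m) (m2 m) where
  ne a := by unfold m2; split_ifs <;> simp [Fin.ext_iff]
  sgn a a' := by unfold m2; split_ifs <;> simp [Fin.ext_iff]
  inj a a' := by
    unfold m2 e2
    rw [Fin.ext_iff, Fin.ext_iff]
    split_ifs <;> simp <;> omega

/-- The subgroup generated by the first two letters. -/
def H : Subgroup (F (m + 6)) :=
  Subgroup.closure {FreeGroup.of (lt m 0), FreeGroup.of (lt m 1)}

theorem Tr_H (W : F (m + 6)) (g : F (m + 6)) (hg : g ∈ H m) : Tr m W g = g := by
  unfold H at hg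
  induction hg using Subgroup.closure_induction with
  | mem x hx =>
    rcases hx with h | h
    · rw [h, Tr, FreeGroup.lift_apply_of]; simp
    · rw [Set.mem_singleton_iff] at h
      rw [h, Tr, FreeGroup.lift_apply_of]; simp
  | one => simp
  | mul x y _ _ hx hy => rw [map_mul, hx, hy]
  | inv x _ hx => rw [map_inv, hx]

theorem Tr_comp (W : F (m + 6)) (hW : W ∈ H m) (g : F (m + 6)) : Tr m W (Tr m W⁻¹ g) = g := by
  have : (Tr m W).comp (Tr m W⁻¹) = MonoidHom.id _ := by
    apply FreeGroup.ext_hom
    intro a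
    simp only [MonoidHom.comp_apply, MonoidHom.id_apply]
    by_cases h : a.val = 2
    · have e : ∀ U, Tr m U (FreeGroup.of a) = U * FreeGroup.of a := by
        intro U; rw [Tr, FreeGroup.lift_apply_of, if_pos h]
      rw [e, map_mul, Tr_H m W _ (inv_mem hW), e]; simp
    · have e : ∀ U, Tr m U (FreeGroup.of a) = FreeGroup.of a := by
        intro U; rw [Tr, FreeGroup.lift_apply_of, if_neg h]
      rw [e, e]
  exact congrArg (fun f => f g) this

theorem cnt_H (g : F (m + 6)) (hg : g ∈ H m) : cnt (fun a => decide (2 ≤ a.val)) g = 0 := by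
  unfold H at hg
  induction hg using Subgroup.closure_induction with
  | mem x hx =>
    rcases hx with h | h
    · rw [h]; simp [cnt]
    · rw [Set.mem_singleton_iff] at h
      rw [h]; simp [cnt]
  | one => simp [cnt]
  | mul x y _ _ hx hy =>
    have := cnt_mul_le (fun a : Fin (m + 6) => decide (2 ≤ a.val)) x y
    omega
  | inv x _ hx => rw [cnt_inv, hx]

theorem cnt_Tr_le (W : F (m + 6)) (hW : W ∈ H m) (g : F (m + 6)) :
    cnt (fun a => decide (2 ≤ a.val)) (Tr m W g) ≤ cnt (fun a => decide (2 ≤ a.val)) g := by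
  apply cnt_hom_le
  intro a
  have h1 : cnt (fun a : Fin (m + 6) => decide (2 ≤ a.val)) (FreeGroup.of a) =
      if decide (2 ≤ a.val) = true then 1 else 0 := by
    unfold cnt
    rw [FreeGroup.toWord_of, List.countP_cons]; simp
  rw [Tr, FreeGroup.lift_apply_of]
  by_cases h : a.val = 2
  · rw [if_pos h]
    have h2 := cnt_mul_le (fun a : Fin (m + 6) => decide (2 ≤ a.val)) W (FreeGroup.of a)
    rw [cnt_H m W hW, h1, zero_add] at h2
    exact h2
  · rw [if_neg h, h1]

theorem cnt_Tr (W : F (m + 6)) (hW : W ∈ H m) (g : F (m + 6)) :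
    cnt (fun a => decide (2 ≤ a.val)) (Tr m W⁻¹ g) = cnt (fun a => decide (2 ≤ a.val)) g := by
  apply le_antisymm (cnt_Tr_le m _ (inv_mem hW) g)
  have := cnt_Tr_le m W hW (Tr m W⁻¹ g)
  rwa [Tr_comp m W hW] at this

theorem expand_phi (z : F (m + 6)) : z.norm ≤ 1 * (phi m z).norm := by
  rw [one_mul]
  exact norm_cd (good1 m) z

theorem expand_psi (V : F (m + 6)) (hV : V ∈ H m) (z : F (m + 6)) :
    z.norm ≤ (V.norm + 1) * (psi m V z).norm := by
  have h1 := norm_cd (good2 m) (Tr m V⁻¹ z)
  have h2 := norm_hom_le (Tr m V) (V.norm + 1) (by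
    intro a
    rw [Tr, FreeGroup.lift_apply_of]
    split_ifs
    · refine (FreeGroup.norm_mul_le _ _).trans ?_
      rw [FreeGroup.norm_of]
    · rw [FreeGroup.norm_of]; omega) (Tr m V⁻¹ z)
  rw [Tr_comp m V hV] at h2
  exact h2.trans (Nat.mul_le_mul_left _ h1)

/-! ### The equalizer is trivial -/

theorem Tr_fix (W : F (m + 6)) (w : List (Fin (m + 6) × Bool)) (hw : ∀ s ∈ w, s.1.val ≠ 2) :
    Tr m W (FreeGroup.mk w) = FreeGroup.mk w := by
  induction w with
  | nil => exact map_one _
  | cons s w ih =>
    have h1 : Tr m W (ltr s) = ltr s := by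
      have h2 := hw s (by simp)
      obtain ⟨a, ε⟩ := s
      have e : Tr m W (FreeGroup.of a) = FreeGroup.of a := by
        rw [Tr, FreeGroup.lift_apply_of, if_neg h2]
      cases ε with
      | true => exact e
      | false => rw [ltr_false, map_inv, e]
    rw [mk_cons, map_mul, h1, ih (fun s hs => hw s (by simp [hs]))]

theorem psi0_fix (w : List (Fin (m + 6) × Bool)) (hw : ∀ s ∈ w, s.1.val ≤ 1) :
    psi0 m (FreeGroup.mk w) = FreeGroup.mk w := by
  induction w with
  | nil => exact map_one _
  | cons s w ih =>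
    have h1 : psi0 m (ltr s) = ltr s := by
      have h2 := hw s (by simp)
      have h3 : e2 m s.1 = 0 := by simp [e2, h2]
      have h4 : mid (m2 m) s = s := by
        obtain ⟨a, ε⟩ := s
        simp only at h2
        rcases Nat.le_one_iff_eq_zero_or_eq_one.1 h2 with h | h
        · cases ε <;> simp [mid, m2, h, Fin.ext_iff]
        · cases ε <;> simp [mid, m2, h, Fin.ext_iff]
      rw [psi0, cd_ltr, h3, h4]; simp
    rw [mk_cons, map_mul, h1, ih (fun s hs => hw s (by simp [hs]))]

theorem eq_triv (V : F (m + 6)) (hV : V ∈ H m) (g : F (m + 6)) (h : phi m g = psi m V g) :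
    g = 1 := by
  have h' : phi m g = psi0 m (Tr m V⁻¹ g) := h
  -- step 1
  have c1 : cnt (fun a : Fin (m + 6) => decide (a.val = 4)) (phi m g) =
      cnt (fun a => decide (a.val = 4)) g := by
    rw [phi, cnt_cd (good1 m) _ (by simp)]
    congr 1
    funext a
    unfold m1
    split_ifs <;> simp [*]
  have c2 : cnt (fun a : Fin (m + 6) => decide (a.val = 4)) (psi0 m (Tr m V⁻¹ g)) =
      cnt (fun a => decide (2 ≤ a.val)) (Tr m V⁻¹ g) := by
    rw [psi0, cnt_cd (good2 m) _ (by simp)]
    congr 1
    funext a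
    unfold m2
    split_ifs <;> simp [*] <;> omega
  rw [h', c2, cnt_Tr m V hV] at c1
  have s1 : ∀ s ∈ g.toWord, 2 ≤ s.1.val → s.1.val = 4 := by
    have := countP_eq_imp (fun s : Fin (m + 6) × Bool => decide (s.1.val = 4))
      (fun s => decide (2 ≤ s.1.val)) g.toWord (by intro a; simp; omega) c1.le
    intro s hs h2
    simpa using this s hs (by simpa using h2)
  -- step 2
  have t1 : Tr m V⁻¹ g = g := by
    have := Tr_fix m V⁻¹ g.toWord (fun s hs h2 => by have := s1 s hs (by omega); omega)
    rwa [FreeGroup.mk_toWord] at this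
  rw [t1] at h'
  have c3 : cnt (fun a : Fin (m + 6) => decide (a = lt m 5)) (phi m g) = 0 := by
    rw [phi, cnt_cd (good1 m) _ (by simp [Fin.ext_iff])]
    unfold cnt
    rw [List.countP_eq_zero]
    intro s hs
    have := s1 s hs
    unfold m1
    simp only [decide_eq_true_eq]
    split_ifs <;> simp [Fin.ext_iff] <;> omega
  rw [h'] at c3
  have c4 : ∀ s ∈ g.toWord, e2 m s.1 = 0 := by
    apply count_pad (b := lt m 5) (m := m2 m)
    rw [← toWord_cd (good2 m)]
    exact c3
  have c5 : ∀ s ∈ g.toWord, s.1.val ≤ 1 := by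
    intro s hs
    have := c4 s hs
    unfold e2 at this
    split_ifs at this with h5
    · exact h5
    · omega
  have t2 : psi0 m g = g := by
    have := psi0_fix m g.toWord c5
    rwa [FreeGroup.mk_toWord] at this
  rw [t2] at h'
  have t3 := toWord_cd (good1 m) g
  rw [← phi, h'] at t3
  rcases hw : g.toWord with _ | ⟨s, w⟩
  · exact FreeGroup.toWord_eq_nil_iff.1 hw
  · exfalso
    rw [hw] at t3 c5
    have h6 := c5 s (by simp)
    obtain ⟨a, ε⟩ := s
    simp only at h6
    rcases Nat.le_one_iff_eq_zero_or_eq_one.1 h6 with h | h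
    · simp [G, e1, h, pw, mid, m1] at t3
    · cases ε <;> simp [G, e1, h, pw, sg] at t3

end data

/-! ### Positive elements -/

theorem toWord_mul_pos {n : ℕ} (g h : F n) (hg : ∀ s ∈ g.toWord, s.2 = true)
    (hh : ∀ s ∈ h.toWord, s.2 = true) : (g * h).toWord = g.toWord ++ h.toWord := by
  rw [FreeGroup.toWord_mul]
  apply FreeGroup.IsReduced.reduce_eq
  unfold FreeGroup.IsReduced
  rw [List.isChain_append]
  refine ⟨FreeGroup.isReduced_toWord, FreeGroup.isReduced_toWord, ?_⟩
  intro x hx y hy _
  rw [hg x (List.mem_of_mem_getLast? hx), hh y (List.mem_of_mem_head? hy)]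

/-- The submonoid of positive elements. -/
def posM (n : ℕ) : Submonoid (F n) where
  carrier := {g | ∀ s ∈ g.toWord, s.2 = true}
  mul_mem' {g h} hg hh := by
    intro s hs
    rw [toWord_mul_pos g h hg hh] at hs
    rcases List.mem_append.1 hs with h1 | h1
    · exact hg s h1
    · exact hh s h1
  one_mem' := by
    intro s hs
    simp at hs

theorem posM_mul {n : ℕ} {g h : F n} (hg : g ∈ posM n) (hh : h ∈ posM n) :
    (g * h).toWord = g.toWord ++ h.toWord := toWord_mul_pos g h hg hh

theorem of_posM {n : ℕ} (a : Fin n) : (FreeGroup.of a : F n) ∈ posM n := by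
  intro s hs
  rw [FreeGroup.toWord_of] at hs
  simp at hs
  rw [hs]

theorem exists_point {n : ℕ} (φ ψ : F n →* F n) (hφ : UniformContinuous φ)
    (hψ : UniformContinuous ψ) (hψi : Function.Injective ψ) (M : Submonoid (F n))
    (hM : M ≤ posM n) (hstep : ∀ g ∈ M, ∃ g' ∈ M, φ g' = ψ g) (a s : F n) (ha : a ∈ posM n)
    (hs : s ∈ M) (hs1 : s ≠ 1) (h : ψ a = φ (a * s)) :
    ∃ α : Hat n, UniformSpace.Completion.map φ α = UniformSpace.Completion.map ψ α ∧
      dist α (a : Hat n) ≤ (1 / 2 : ℝ) ^ a.toWord.length := by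
  choose nx hnx1 hnx2 using hstep
  -- the sequence of increments
  obtain ⟨inc, inc0, inc1⟩ : ∃ inc : ℕ → {g : F n // g ∈ M ∧ g ≠ 1}, (inc 0).1 = s ∧
      ∀ k, φ (inc (k + 1)).1 = ψ (inc k).1 :=
    ⟨fun k => Nat.rec ⟨s, hs, hs1⟩
      (fun _ g => ⟨nx g.1 g.2.1, hnx1 _ _, fun h1 => g.2.2 (hψi (by
        rw [← hnx2 g.1 g.2.1, h1, map_one, map_one]))⟩) k, rfl, fun k => hnx2 _ _⟩
  obtain ⟨u, u0, u1⟩ : ∃ u : ℕ → F n, u 0 = a ∧ ∀ k, u (k + 1) = u k * (inc k).1 :=
    ⟨fun k => Nat.rec a (fun k g => g * (inc k).1) k, rfl, fun k => rfl⟩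
  have upos : ∀ k, u k ∈ posM n := by
    intro k
    induction k with
    | zero => rw [u0]; exact ha
    | succ k ih => rw [u1]; exact mul_mem ih (hM (inc k).2.1)
  have uw : ∀ k, (u (k + 1)).toWord = (u k).toWord ++ (inc k).1.toWord := by
    intro k; rw [u1]; exact posM_mul (upos k) (hM (inc k).2.1)
  have ulen : ∀ k, a.toWord.length + k ≤ (u k).toWord.length := by
    intro k
    induction k with
    | zero => rw [u0]; exact le_refl _
    | succ k ih =>
      rw [uw, List.length_append]
      have : 0 < (inc k).1.toWord.length := by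
        rw [List.length_pos_iff]
        intro h0
        exact (inc k).2.2 (FreeGroup.toWord_eq_nil_iff.1 h0)
      omega
  have key : ∀ k, φ (u (k + 1)) = ψ (u k) := by
    intro k
    induction k with
    | zero => rw [u1, u0, inc0, h]
    | succ k ih => rw [u1 (k + 1), map_mul, ih, inc1, ← map_mul, ← u1]
  have ud : ∀ k, dist (u k : Hat n) (u (k + 1) : Hat n) ≤ 1 * (1 / 2 : ℝ) ^ k := by
    intro k
    rw [UniformSpace.Completion.dist_eq, one_mul, dist_le_iff, uw,
      List.take_append_of_le_length]
    have := ulen k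
    omega
  have ua : ∀ k, dist (u k : Hat n) (a : Hat n) ≤ (1 / 2 : ℝ) ^ a.toWord.length := by
    intro k
    rw [UniformSpace.Completion.dist_eq, dist_le_iff]
    induction k with
    | zero => rw [u0]
    | succ k ih =>
      rw [uw, List.take_append_of_le_length, ih]
      have := ulen k
      omega
  have hc : CauchySeq (fun k => (u k : Hat n)) :=
    cauchySeq_of_le_geometric (1 / 2) 1 (by norm_num) ud
  obtain ⟨α, hα⟩ := cauchySeq_tendsto_of_complete hc
  refine ⟨α, ?_, ?_⟩
  · have t1 : Filter.Tendsto (fun k => UniformSpace.Completion.map φ (u (k + 1) : Hat n))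
        Filter.atTop (nhds (UniformSpace.Completion.map φ α)) :=
      ((UniformSpace.Completion.continuous_map.tendsto α).comp hα).comp
        (Filter.tendsto_add_atTop_nat 1)
    have t2 : Filter.Tendsto (fun k => UniformSpace.Completion.map ψ (u k : Hat n))
        Filter.atTop (nhds (UniformSpace.Completion.map ψ α)) :=
      (UniformSpace.Completion.continuous_map.tendsto α).comp hα
    refine tendsto_nhds_unique t1 ?_
    have : (fun k => UniformSpace.Completion.map φ (u (k + 1) : Hat n)) =
        (fun k => UniformSpace.Completion.map ψ (u k : Hat n)) := by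
      funext k
      rw [UniformSpace.Completion.map_coe hφ, UniformSpace.Completion.map_coe hψ, key]
    rw [this]
    exact t2
  · exact le_of_tendsto (hα.dist tendsto_const_nhds) (Filter.Eventually.of_forall ua)

/-! ### The construction -/

section constr
variable (m : ℕ)

/-- letter r -/
abbrev r : F (m + 6) := FreeGroup.of (lt m 0)
/-- letter y -/
abbrev y : F (m + 6) := FreeGroup.of (lt m 1)
/-- letter x -/
abbrev x : F (m + 6) := FreeGroup.of (lt m 2)
/-- letter h -/
abbrev h : F (m + 6) := FreeGroup.of (lt m 3)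
/-- letter p -/
abbrev p : F (m + 6) := FreeGroup.of (lt m 4)
/-- letter q -/
abbrev q : F (m + 6) := FreeGroup.of (lt m 5)

theorem phi_of (a : Fin (m + 6)) : phi m (FreeGroup.of a) =
    y m ^ e1 m a * ltr (m1 m a) * y m ^ e1 m a := by
  rw [phi, cd, FreeGroup.lift_apply_of]

theorem psi0_of (a : Fin (m + 6)) : psi0 m (FreeGroup.of a) =
    q m ^ e2 m a * ltr (m2 m a) * q m ^ e2 m a := by
  rw [psi0, cd, FreeGroup.lift_apply_of]

theorem Tr_of (W : F (m + 6)) (a : Fin (m + 6)) (ha : a.val ≠ 2) :
    Tr m W (FreeGroup.of a) = FreeGroup.of a := by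
  rw [Tr, FreeGroup.lift_apply_of, if_neg ha]

theorem phi_r : phi m (r m) = (r m)⁻¹ := by
  have e : phi m (r m) = y m ^ (0 : ℤ) * (r m)⁻¹ * y m ^ (0 : ℤ) := by
    rw [r, phi_of]; rfl
  rw [e]; group

theorem phi_y : phi m (y m) = (y m)⁻¹ * (r m)⁻¹ * (y m)⁻¹ := by
  have e : phi m (y m) = y m ^ (-1 : ℤ) * (r m)⁻¹ * y m ^ (-1 : ℤ) := by
    rw [y, phi_of]; rfl
  rw [e]; group

theorem phi_x : phi m (x m) = (y m)⁻¹ * (y m)⁻¹ * (r m)⁻¹ * (y m)⁻¹ * (y m)⁻¹ := by
  have e : phi m (x m) = y m ^ (-2 : ℤ) * (r m)⁻¹ * y m ^ (-2 : ℤ) := by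
    rw [x, phi_of]; rfl
  rw [e]; group

theorem phi_h : phi m (h m) =
    (y m)⁻¹ * (y m)⁻¹ * (y m)⁻¹ * (r m)⁻¹ * (y m)⁻¹ * (y m)⁻¹ * (y m)⁻¹ := by
  have e : phi m (h m) = y m ^ (-3 : ℤ) * (r m)⁻¹ * y m ^ (-3 : ℤ) := by
    rw [h, phi_of]; rfl
  rw [e]; group

theorem phi_p : phi m (p m) = p m := by
  have e : phi m (p m) = y m ^ (0 : ℤ) * (p m) * y m ^ (0 : ℤ) := by
    rw [p, phi_of]; rfl
  rw [e]; group

theorem phi_q : phi m (q m) = q m := by
  have e : phi m (q m) = y m ^ (0 : ℤ) * (q m) * y m ^ (0 : ℤ) := by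
    rw [q, phi_of]; rfl
  rw [e]; group

theorem psi0_r : psi0 m (r m) = r m := by
  have e : psi0 m (r m) = q m ^ (0 : ℤ) * (r m) * q m ^ (0 : ℤ) := by
    rw [r, psi0_of]; rfl
  rw [e]; group

theorem psi0_y : psi0 m (y m) = y m := by
  have e : psi0 m (y m) = q m ^ (0 : ℤ) * (y m) * q m ^ (0 : ℤ) := by
    rw [y, psi0_of]; rfl
  rw [e]; group

theorem psi0_x : psi0 m (x m) = q m * q m * p m * q m * q m := by
  have e : psi0 m (x m) = q m ^ 2 * p m * q m ^ 2 := by
    rw [x, psi0_of]; rfl
  rw [e]; simp only [pow_succ, pow_zero, one_mul, mul_assoc]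

theorem psi_h (V : F (m + 6)) :
    psi m V (h m) = q m * q m * q m * p m * q m * q m * q m := by
  have e : psi m V (h m) = q m ^ 3 * p m * q m ^ 3 := by
    rw [psi, MonoidHom.comp_apply, h, Tr_of _ _ _ (by simp), psi0_of]; rfl
  rw [e]; simp only [pow_succ, pow_zero, one_mul, mul_assoc]

theorem psi_p (V : F (m + 6)) :
    psi m V (p m) = q m * q m * q m * q m * p m * q m * q m * q m * q m := by
  have e : psi m V (p m) = q m ^ 4 * p m * q m ^ 4 := by
    rw [psi, MonoidHom.comp_apply, p, Tr_of _ _ _ (by simp), psi0_of]; rfl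
  rw [e]; simp only [pow_succ, pow_zero, one_mul, mul_assoc]

theorem psi_q (V : F (m + 6)) :
    psi m V (q m) = q m * q m * q m * q m * q m * p m * q m * q m * q m * q m * q m := by
  have e : psi m V (q m) = q m ^ 5 * p m * q m ^ 5 := by
    rw [psi, MonoidHom.comp_apply, q, Tr_of _ _ _ (by simp), psi0_of]; rfl
  rw [e]; simp only [pow_succ, pow_zero, one_mul, mul_assoc]

theorem psi0_H (g : F (m + 6)) (hg : g ∈ H m) : psi0 m g = g := by
  unfold H at hg
  induction hg using Subgroup.closure_induction with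
  | mem x hx =>
    rcases hx with h | h
    · rw [h]; exact psi0_r m
    · rw [Set.mem_singleton_iff] at h
      rw [h]; exact psi0_y m
  | one => simp
  | mul x y _ _ hx hy => rw [map_mul, hx, hy]
  | inv x _ hx => rw [map_inv, hx]

theorem psi_H (V : F (m + 6)) (g : F (m + 6)) (hg : g ∈ H m) : psi m V g = g := by
  unfold psi
  rw [MonoidHom.comp_apply, Tr_H m _ g hg, psi0_H m g hg]

theorem psi_x (V : F (m + 6)) (hV : V ∈ H m) :
    psi m V (x m) = V⁻¹ * (q m * q m * p m * q m * q m) := by
  unfold psi
  rw [MonoidHom.comp_apply, Tr, FreeGroup.lift_apply_of,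
    if_pos (show (lt m 2).val = 2 from rfl), map_mul, map_inv,
    psi0_H m V hV]
  exact congrArg (fun g => V⁻¹ * g) (psi0_x m)

/-- The submonoid generated by the first two letters. -/
def P01 : Submonoid (F (m + 6)) := Submonoid.closure {r m, y m}

theorem r_P01 : r m ∈ P01 m := Submonoid.subset_closure (by simp)

theorem y_P01 : y m ∈ P01 m := Submonoid.subset_closure (by simp)

theorem P01_H (g : F (m + 6)) (hg : g ∈ P01 m) : g ∈ H m := by
  have : P01 m ≤ (H m).toSubmonoid := by
    unfold P01
    rw [Submonoid.closure_le]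
    rintro z (h | h)
    · rw [h]; exact Subgroup.subset_closure (Or.inl rfl)
    · rw [Set.mem_singleton_iff] at h
      rw [h]; exact Subgroup.subset_closure (Or.inr rfl)
  exact this hg

theorem P01_pos (g : F (m + 6)) (hg : g ∈ P01 m) : g ∈ posM (m + 6) := by
  have : P01 m ≤ posM (m + 6) := by
    unfold P01
    rw [Submonoid.closure_le]
    rintro z (h | h)
    · rw [h]; exact of_posM _
    · rw [Set.mem_singleton_iff] at h
      rw [h]; exact of_posM _
  exact this hg

theorem phi_P01 (g : F (m + 6)) (hg : g ∈ P01 m) : (phi m g)⁻¹ ∈ P01 m := by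
  unfold P01 at hg
  induction hg using Submonoid.closure_induction with
  | mem z hz =>
    rcases hz with h | h
    · rw [h, phi_r, inv_inv]; exact r_P01 m
    · rw [Set.mem_singleton_iff] at h
      have e : (phi m (y m))⁻¹ = y m * r m * y m := by rw [phi_y]; group
      rw [h, e]
      exact mul_mem (mul_mem (y_P01 m) (r_P01 m)) (y_P01 m)
  | one => rw [map_one, inv_one]; exact one_mem _
  | mul a b _ _ ha hb => rw [map_mul, mul_inv_rev]; exact mul_mem hb ha

/-- the elements `c_l` -/
noncomputable def c : ℕ → F (m + 6)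
  | 0 => 1
  | l + 1 => (y m * y m * r m * y m * y m * y m) *
      ((phi m (y m * c l * x m))⁻¹ * r m ^ (2 * l) * y m) * c l

/-- the elements `B_l` -/
noncomputable def B (l : ℕ) : F (m + 6) := (phi m (y m * c m l * x m))⁻¹ * r m ^ (2 * l) * y m

theorem c_succ (l : ℕ) :
    c m (l + 1) = (y m * y m * r m * y m * y m * y m) * B m l * c m l := rfl

theorem phi_B (l : ℕ) : phi m (y m * c m l * x m) * B m l = r m ^ (2 * l) * y m := by
  unfold B; group

theorem B_P01_of (l : ℕ) (h : c m l ∈ P01 m) : B m l ∈ P01 m := by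
  unfold B
  rw [map_mul, map_mul, mul_inv_rev, mul_inv_rev]
  have e : (phi m (x m))⁻¹ = y m * y m * r m * y m * y m := by
    rw [phi_x]; simp only [mul_inv_rev, inv_inv, mul_assoc]
  have e' : (phi m (y m))⁻¹ = y m * r m * y m := by rw [phi_y]; group
  have h1 := r_P01 m
  have h2 := y_P01 m
  have h3 := phi_P01 m _ h
  rw [e, e']
  exact mul_mem (mul_mem (mul_mem (mul_mem (mul_mem (mul_mem (mul_mem h2 h2) h1) h2) h2)
    (mul_mem h3 (mul_mem (mul_mem h2 h1) h2))) (pow_mem h1 _)) h2

theorem c_P01 (l : ℕ) : c m l ∈ P01 m := by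
  induction l with
  | zero => exact one_mem _
  | succ l ih =>
    have h1 := r_P01 m
    have h2 := y_P01 m
    rw [c_succ]
    exact mul_mem (mul_mem (mul_mem (mul_mem (mul_mem (mul_mem (mul_mem h2 h2) h1) h2) h2) h2)
      (B_P01_of m l ih)) ih

theorem B_P01 (l : ℕ) : B m l ∈ P01 m := B_P01_of m l (c_P01 m l)

/-- the element `V_N` -/
noncomputable def V (N : ℕ) : F (m + 6) := B m N * c m N

theorem V_H (N : ℕ) : V m N ∈ H m := P01_H m _ (mul_mem (B_P01 m N) (c_P01 m N))

/-- the elements `d_l` -/
noncomputable def dd : ℕ → ℕ → F (m + 6)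
  | 0, _ => 1
  | k + 1, l => h m * (r m ^ (2 * (l + 1)) * y m * c m (l + 1) * x m) * dd k (l + 1)

theorem phi_dd (N : ℕ) (k l : ℕ) (hkl : k + l = N) :
    phi m (dd m k l) = B m l * c m l * (V m N)⁻¹ := by
  induction k generalizing l with
  | zero =>
    have : l = N := by omega
    subst this
    rw [dd, map_one, V]; group
  | succ k ih =>
    rw [dd, map_mul, map_mul, ih (l + 1) (by omega)]
    have e : r m ^ (2 * (l + 1)) * y m * c m (l + 1) * x m =
        r m ^ (2 * (l + 1)) * (y m * c m (l + 1) * x m) := by group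
    rw [e, map_mul, map_pow, phi_r, phi_h]
    have e2 := phi_B m (l + 1)
    have e3 : phi m (y m * c m (l + 1) * x m) = r m ^ (2 * (l + 1)) * y m * (B m (l + 1))⁻¹ := by
      rw [← e2]; group
    rw [e3, inv_pow, c_succ m l]
    group

theorem main_id (N l j i : ℕ) (hl : l ≤ N) (hj : i + j = 2 * l) :
    psi m (V m N) (r m ^ j * y m * c m l * x m) =
      phi m (r m ^ i * y m * c m l * x m * (dd m (N - l) l *
        (q m * q m * p m * q m * q m))) := by
  have e1 : psi m (V m N) (r m ^ j * y m * c m l * x m) =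
      r m ^ j * y m * c m l * ((V m N)⁻¹ * (q m * q m * p m * q m * q m)) := by
    rw [map_mul, psi_x m _ (V_H m N), psi_H]
    refine mul_mem (mul_mem (pow_mem ?_ _) ?_) (P01_H m _ (c_P01 m l))
    · exact P01_H m _ (r_P01 m)
    · exact P01_H m _ (y_P01 m)
  have e2 : r m ^ i * y m * c m l * x m * (dd m (N - l) l * (q m * q m * p m * q m * q m)) =
      r m ^ i * (y m * c m l * x m) * (dd m (N - l) l) * (q m * q m * p m * q m * q m) := by
    group
  have e3 : phi m (y m * c m l * x m) = r m ^ (2 * l) * y m * (B m l)⁻¹ := by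
    rw [← phi_B m l]; group
  have e4 : phi m (q m * q m * p m * q m * q m) = q m * q m * p m * q m * q m := by
    simp only [map_mul, phi_p, phi_q]
  rw [e1, e2, map_mul, map_mul, map_mul, map_pow, phi_r, e3, e4,
    phi_dd m N (N - l) l (by omega), ← hj, pow_add, inv_pow]
  group

/-- The submonoid of the admissible words. -/
def adm (N : ℕ) : Submonoid (F (m + 6)) :=
  Submonoid.closure ({g | ∃ l i j, l ≤ N ∧ i + j = 2 * l ∧ g = r m ^ j * y m * c m l * x m} ∪
    {h m, p m, q m})

theorem h_adm (N : ℕ) : h m ∈ adm m N := Submonoid.subset_closure (by simp)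
theorem p_adm (N : ℕ) : p m ∈ adm m N := Submonoid.subset_closure (by simp)
theorem q_adm (N : ℕ) : q m ∈ adm m N := Submonoid.subset_closure (by simp)

theorem b_adm (N l i j : ℕ) (hl : l ≤ N) (hij : i + j = 2 * l) :
    r m ^ j * y m * c m l * x m ∈ adm m N :=
  Submonoid.subset_closure (Or.inl ⟨l, i, j, hl, hij, rfl⟩)

theorem dd_adm (N k l : ℕ) (hkl : k + l = N) : dd m k l ∈ adm m N := by
  induction k generalizing l with
  | zero => exact one_mem _
  | succ k ih =>
    rw [dd]
    exact mul_mem (mul_mem (h_adm m N) (b_adm m N (l + 1) 0 _ (by omega) (by omega)))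
      (ih (l + 1) (by omega))

theorem tau_adm (N : ℕ) : q m * q m * p m * q m * q m ∈ adm m N :=
  mul_mem (mul_mem (mul_mem (mul_mem (q_adm m N) (q_adm m N)) (p_adm m N)) (q_adm m N)) (q_adm m N)

theorem adm_pos (N : ℕ) : adm m N ≤ posM (m + 6) := by
  unfold adm
  rw [Submonoid.closure_le]
  rintro g (⟨l, i, j, _, _, rfl⟩ | hg)
  · exact mul_mem (mul_mem (mul_mem (pow_mem (of_posM _) _) (of_posM _))
      (P01_pos m _ (c_P01 m l))) (of_posM _)
  · rcases hg with hg | hg | hg
    · rw [hg]; exact of_posM _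
    · rw [hg]; exact of_posM _
    · rw [Set.mem_singleton_iff] at hg
      rw [hg]; exact of_posM _

theorem adm_step (N : ℕ) (g : F (m + 6)) (hg : g ∈ adm m N) :
    ∃ g' ∈ adm m N, phi m g' = psi m (V m N) g := by
  unfold adm at hg
  induction hg using Submonoid.closure_induction with
  | mem g hg =>
    have hp := p_adm m N
    have hq := q_adm m N
    rcases hg with ⟨l, i, j, hl, hij, rfl⟩ | hg
    · refine ⟨_, ?_, (main_id m N l j i hl hij).symm⟩
      exact mul_mem (b_adm m N l j i hl (by omega)) (mul_mem (dd_adm m N _ l (by omega))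
        (tau_adm m N))
    · rcases hg with hg | hg | hg
      · rw [hg]
        refine ⟨q m * q m * q m * p m * q m * q m * q m, ?_, ?_⟩
        · exact mul_mem (mul_mem (mul_mem (mul_mem (mul_mem (mul_mem hq hq) hq) hp) hq) hq) hq
        · rw [psi_h]; simp only [map_mul, phi_p, phi_q]
      · rw [hg]
        refine ⟨q m * q m * q m * q m * p m * q m * q m * q m * q m, ?_, ?_⟩
        · exact mul_mem (mul_mem (mul_mem (mul_mem (mul_mem (mul_mem (mul_mem (mul_mem
            hq hq) hq) hq) hp) hq) hq) hq) hq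
        · rw [psi_p]; simp only [map_mul, phi_p, phi_q]
      · rw [Set.mem_singleton_iff] at hg
        rw [hg]
        refine ⟨q m * q m * q m * q m * q m * p m * q m * q m * q m * q m * q m, ?_, ?_⟩
        · exact mul_mem (mul_mem (mul_mem (mul_mem (mul_mem (mul_mem (mul_mem (mul_mem (mul_mem
            (mul_mem hq hq) hq) hq) hq) hp) hq) hq) hq) hq) hq
        · rw [psi_q]; simp only [map_mul, phi_p, phi_q]
  | one => exact ⟨1, one_mem _, by rw [map_one, map_one]⟩
  | mul a b _ _ ha hb =>
    obtain ⟨a', ha1, ha2⟩ := ha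
    obtain ⟨b', hb1, hb2⟩ := hb
    exact ⟨a' * b', mul_mem ha1 hb1, by rw [map_mul, map_mul, ha2, hb2]⟩

/-- start words -/
noncomputable def st (l : ℕ) : F (m + 6) := r m ^ l * y m * c m l * x m

theorem toWord_st (l : ℕ) : ∃ w, (st m l).toWord =
    List.replicate l (lt m 0, true) ++ (lt m 1, true) :: w ∧ w ≠ [] := by
  have e1 : (r m ^ l).toWord = List.replicate l (lt m 0, true) := by
    rw [r, FreeGroup.toWord_of_pow]
  have h1 : r m ^ l ∈ posM (m + 6) := pow_mem (of_posM _) _
  have h2 : y m ∈ posM (m + 6) := of_posM _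
  have h3 : c m l ∈ posM (m + 6) := P01_pos m _ (c_P01 m l)
  have h4 : x m ∈ posM (m + 6) := of_posM _
  refine ⟨(c m l).toWord ++ [(lt m 2, true)], ?_, by simp⟩
  unfold st
  rw [posM_mul (mul_mem (mul_mem h1 h2) h3) h4, posM_mul (mul_mem h1 h2) h3, posM_mul h1 h2, e1,
    FreeGroup.toWord_of, FreeGroup.toWord_of]
  simp

theorem st_pos (l : ℕ) : st m l ∈ posM (m + 6) :=
  mul_mem (mul_mem (mul_mem (pow_mem (of_posM _) _) (of_posM _))
      (P01_pos m _ (c_P01 m l))) (of_posM _)

end constr

/-- Left multiplications are uniformly continuous for the prefix metric. -/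
theorem uc_mul {n : ℕ} (g : F n) : UniformContinuous (fun u : F n => g * u) := by
  have key : ∀ (N : ℕ) (L₂ L₁ : List (Fin n × Bool)), FreeGroup.IsReduced (L₁ ++ L₂) →
      (N + 1 + g.norm ≤ L₁.length ∨ L₂ = []) →
      (g * FreeGroup.mk (L₁ ++ L₂)).toWord.take N = (g * FreeGroup.mk L₁).toWord.take N := by
    intro N L₂
    induction L₂ with
    | nil => intro L₁ _ _; simp
    | cons s L₂ ih =>
      intro L₁ hr hlen
      have hlen' : N + 1 + g.norm ≤ L₁.length := by
        rcases hlen with h | h
        · exact h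
        · simp at h
      have e : L₁ ++ s :: L₂ = (L₁ ++ [s]) ++ L₂ := by simp
      rw [e, ih (L₁ ++ [s]) (by rwa [← e]) (Or.inl (by simp; omega))]
      have hL₁ : FreeGroup.IsReduced L₁ := (List.isChain_append.1 hr).1
      rw [← FreeGroup.mul_mk, ← mul_assoc]
      apply take_step
      have h2 : (FreeGroup.mk L₁ : F n).norm = L₁.length := by
        unfold FreeGroup.norm; rw [toWord_mk_red hL₁]
      have h3 := FreeGroup.norm_mul_le g⁻¹ (g * FreeGroup.mk L₁)
      rw [inv_mul_cancel_left, FreeGroup.norm_inv_eq, h2] at h3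
      omega
  rw [Metric.uniformContinuous_iff]
  intro ε hε
  obtain ⟨N, hN⟩ := exists_pow_lt_of_lt_one hε (by norm_num : (1 / 2 : ℝ) < 1)
  refine ⟨(1 / 2 : ℝ) ^ (N + 1 + g.norm), by positivity, ?_⟩
  intro u v huv
  have h1 := (dist_le_iff u v _).1 huv.le
  refine lt_of_le_of_lt ?_ hN
  rw [dist_le_iff]
  have aux : ∀ w : F n, (g * w).toWord.take N =
      (g * FreeGroup.mk (w.toWord.take (N + 1 + g.norm))).toWord.take N := by
    intro w
    have h2 := key N (w.toWord.drop (N + 1 + g.norm)) (w.toWord.take (N + 1 + g.norm))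
      (by rw [List.take_append_drop]; exact FreeGroup.isReduced_toWord)
      (by
        rcases le_total (N + 1 + g.norm) w.toWord.length with h | h
        · left; simp; omega
        · right; simp; omega)
    rw [List.take_append_drop, FreeGroup.mk_toWord] at h2
    exact h2
  rw [aux u, aux v, h1]

/-- `act g` really extends left multiplication by `g`, and it is continuous. -/
theorem act_spec {n : ℕ} (g : F n) :
    Continuous (act g) ∧ ∀ u : F n, act g (u : Hat n) = ((g * u : F n) : Hat n) :=
  ⟨UniformSpace.Completion.continuous_map, fun u => UniformSpace.Completion.map_coe (uc_mul g) u⟩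

theorem act_one {n : ℕ} (α : Hat n) : act (1 : F n) α = α := by
  have : (fun u : F n => 1 * u) = id := by funext u; simp
  unfold act
  rw [this, UniformSpace.Completion.map_id]
  rfl

theorem st_facts (m l : ℕ) : l + 2 ≤ (st m l).toWord.length ∧
    (st m l).toWord[l]? = some (lt m 1, true) ∧
    ∀ i < l, (st m l).toWord[i]? = some (lt m 0, true) := by
  obtain ⟨w, hw, hne⟩ := toWord_st m l
  have hl : 0 < w.length := List.length_pos_iff.2 hne
  rw [hw]
  refine ⟨by simp; omega, by simp, ?_⟩
  intro i hi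
  rw [List.getElem?_append_left (by simpa using hi)]
  simp [hi]

theorem unbounded (m N : ℕ) : ∃ φ ψ : F (m + 6) →* F (m + 6),
    Function.Injective φ ∧ Function.Injective ψ ∧ MonoidHom.eqLocus φ ψ = ⊥ ∧
    ∃ Φ Ψ : Hat (m + 6) → Hat (m + 6), IsExt φ Φ ∧ IsExt ψ Ψ ∧
      (N : ℕ∞) < (orbits φ ψ Φ Ψ).encard := by
  have hV := V_H m N
  have hφ : UniformContinuous (phi m) := uc_of_expand _ _ (expand_phi m)
  have hψ : UniformContinuous (psi m (V m N)) := uc_of_expand _ _ (expand_psi m _ hV)
  have iφ : Function.Injective (phi m) := inj_of_expand _ _ (expand_phi m)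
  have iψ : Function.Injective (psi m (V m N)) := inj_of_expand _ _ (expand_psi m _ hV)
  have hbot : MonoidHom.eqLocus (phi m) (psi m (V m N)) = ⊥ := by
    rw [eq_bot_iff]
    intro g hg
    exact Subgroup.mem_bot.2 (eq_triv m _ hV g hg)
  refine ⟨phi m, psi m (V m N), iφ, iψ, hbot, UniformSpace.Completion.map (phi m),
    UniformSpace.Completion.map (psi m (V m N)),
    ⟨UniformSpace.Completion.continuous_map, UniformSpace.Completion.map_coe hφ⟩,
    ⟨UniformSpace.Completion.continuous_map, UniformSpace.Completion.map_coe hψ⟩, ?_⟩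
  -- the points
  have pts : ∀ l : Fin (N + 1), ∃ α : Hat (m + 6),
      UniformSpace.Completion.map (phi m) α = UniformSpace.Completion.map (psi m (V m N)) α ∧
      dist α (st m l.val : Hat (m + 6)) ≤ (1 / 2 : ℝ) ^ (st m l.val).toWord.length := by
    intro l
    have hid := main_id m N l.val l.val l.val (by omega) (by omega)
    refine exists_point (phi m) (psi m (V m N)) hφ hψ iψ (adm m N) (adm_pos m N) (adm_step m N)
      (st m l.val) (dd m (N - l.val) l.val * (q m * q m * p m * q m * q m)) (st_pos m l.val)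
      (mul_mem (dd_adm m N _ _ (by omega)) (tau_adm m N)) ?_ hid
    intro h1
    rw [h1, mul_one] at hid
    have h2 : st m l.val = 1 := eq_triv m _ hV _ hid.symm
    have h3 := (st_facts m l.val).1
    rw [h2] at h3
    simp at h3
  choose α hα1 hα2 using pts
  have hne : ∀ l l' : Fin (N + 1), l.val < l'.val → α l ≠ α l' := by
    intro l l' hll h
    have h1 := hα2 l
    have h2 := hα2 l'
    rw [← h] at h2
    have h3 : dist (st m l.val : Hat (m + 6)) (st m l'.val : Hat (m + 6)) ≤
        (1 / 2 : ℝ) ^ (l.val + 1) := by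
      have e1 : (1 / 2 : ℝ) ^ (st m l.val).toWord.length ≤ (1 / 2 : ℝ) ^ (l.val + 2) :=
        pow_le_pow_of_le_one (by norm_num) (by norm_num) (st_facts m l.val).1
      have e2 : (1 / 2 : ℝ) ^ (st m l'.val).toWord.length ≤ (1 / 2 : ℝ) ^ (l.val + 2) :=
        pow_le_pow_of_le_one (by norm_num) (by norm_num)
          (by have := (st_facts m l'.val).1; omega)
      have e3 := dist_triangle_left (st m l.val : Hat (m + 6)) (st m l'.val : Hat (m + 6)) (α l)
      have e4 : (1 / 2 : ℝ) ^ (l.val + 2) + (1 / 2 : ℝ) ^ (l.val + 2) =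
          (1 / 2 : ℝ) ^ (l.val + 1) := by ring
      linarith
    rw [UniformSpace.Completion.dist_eq, dist_le_iff] at h3
    have h4 := congrArg (fun L => L[l.val]?) h3
    simp only [List.getElem?_take] at h4
    rw [if_pos (by omega), if_pos (by omega), (st_facts m l.val).2.1,
      (st_facts m l'.val).2.2 l.val hll] at h4
    simp at h4
  have hinj : Function.Injective α := by
    intro l l' h
    rcases lt_trichotomy l.val l'.val with h1 | h1 | h1
    · exact absurd h (hne l l' h1)
    · exact Fin.ext h1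
    · exact absurd h.symm (hne l' l h1)
  have hreg : ∀ l, α l ∈ regular (phi m) (psi m (V m N)) (UniformSpace.Completion.map (phi m))
      (UniformSpace.Completion.map (psi m (V m N))) := by
    intro l
    refine ⟨hα1 l, ?_⟩
    rw [hbot, Subgroup.coe_bot, Set.image_singleton, closure_singleton, Set.mem_singleton_iff]
    intro h
    have h1 := hα2 l
    rw [h, UniformSpace.Completion.dist_eq, dist_le_iff] at h1
    have h3 := (st_facts m l.val).1
    rw [List.take_length] at h1
    rw [← h1] at h3
    simp at h3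
  let f : Fin (N + 1) → Set (Hat (m + 6)) := fun l =>
    {β | ∃ g ∈ MonoidHom.eqLocus (phi m) (psi m (V m N)), act g (α l) = β}
  have hf : Function.Injective f := by
    intro l l' h
    have h1 : α l ∈ f l := ⟨1, one_mem _, act_one _⟩
    rw [h] at h1
    obtain ⟨g, hg, h2⟩ := h1
    rw [hbot, Subgroup.mem_bot] at hg
    rw [hg, act_one] at h2
    exact hinj h2.symm
  have hsub : Set.range f ⊆ orbits (phi m) (psi m (V m N)) (UniformSpace.Completion.map (phi m))
      (UniformSpace.Completion.map (psi m (V m N))) := by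
    rintro _ ⟨l, rfl⟩
    exact ⟨α l, hreg l, rfl⟩
  have hcard : (Set.range f).encard = ((N + 1 : ℕ) : ℕ∞) := by
    rw [← Set.image_univ, hf.encard_image, Set.encard_univ]
    simp
  refine lt_of_lt_of_le ?_ (Set.encard_le_encard hsub)
  rw [hcard]
  exact_mod_cast Nat.lt_succ_self N

theorem result :
    (∀ n : ℕ, 6 ≤ n → ∀ C : ℕ, ∃ φ ψ : F n →* F n,
      Function.Injective φ ∧ Function.Injective ψ ∧ MonoidHom.eqLocus φ ψ = ⊥ ∧
      ∃ Φ Ψ : Hat n → Hat n, IsExt φ Φ ∧ IsExt ψ Ψ ∧ (C : ℕ∞) < (orbits φ ψ Φ Ψ).encard) ∧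
    ¬ (∀ n : ℕ, 1 ≤ n → ∃ C : ℕ, ∀ φ ψ : F n →* F n,
      Function.Injective φ → Function.Injective ψ → ∀ Φ Ψ : Hat n → Hat n,
      IsExt φ Φ → IsExt ψ Ψ → (orbits φ ψ Φ Ψ).encard ≤ C) := by
  have main : ∀ n : ℕ, 6 ≤ n → ∀ C : ℕ, ∃ φ ψ : F n →* F n,
      Function.Injective φ ∧ Function.Injective ψ ∧ MonoidHom.eqLocus φ ψ = ⊥ ∧
      ∃ Φ Ψ : Hat n → Hat n, IsExt φ Φ ∧ IsExt ψ Ψ ∧ (C : ℕ∞) < (orbits φ ψ Φ Ψ).encard := by
    intro n hn C
    obtain ⟨m, rfl⟩ : ∃ m, n = m + 6 := ⟨n - 6, by omega⟩
    exact unbounded m C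
  refine ⟨main, ?_⟩
  intro h
  obtain ⟨C, hC⟩ := h 6 (by norm_num)
  obtain ⟨φ, ψ, h1, h2, _, Φ, Ψ, h3, h4, h5⟩ := main 6 (le_refl _) C
  exact absurd (hC φ ψ h1 h2 Φ Ψ h3 h4) (not_le.2 h5)

end Pool.Agent.Results.MP_05f72b_al.UnboundedOrbits
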